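import Pool.Agent.Q12.ST.Cyc

/-!
# The Sato-Tate law: descent from the fields over which a Galois extension is cyclic

`K` is a number field (`K = ℚ` in the problem), `Γ = Gal(K̄/K)`, `G` the Sato-Tate group of
`H^i(X)`, a compact group with Haar probability measure `μ`, and `x v ∈ G` an element of the class
of the prime `v` of `K` (any element at the finitely many exceptional primes).  The group of components
of `G` is a quotient `Γ / N`, the Galois group of a finite extension of `K`; `p : G → Γ / N` is the
projection, and `p (x v)` is the class of the Frobenius elements at `v`.  For a finite extension `F` of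
`K` in `K̄` the Sato-Tate group `ST_F` of `X_F` is the union `part p F` of the components of `G` belonging to the
image of `Gal(K̄/F)`, and the class of a prime `w` of `F` of residue degree one over the prime `v` of `K`
is contained in the class of `x v` in `G`; these primes `w` have density one.

For a class function `f` of `G` the law over `F` predicts that the averages of `f` over the classes of
the primes of `F` of norm at most `N` tend to `expected μ p F f`, the mean value of `f` on `ST_F`.  For
`F = K` this is the law of the problem.  The theorem is unconditional; no L-function is used.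
-/

set_option autoImplicit false

namespace Pool.Agent.Results.MP_32ceeb_nt.CyclicDescent

open NumberField IsDedekindDomain Filter Topology MeasureTheory

section

variable {F : Type} [Field F] [NumberField F]

/-- The average of `φ` over the primes of `F` of norm at most `N`. -/
noncomputable def avg (φ : HeightOneSpectrum (𝓞 F) → ℝ) (N : ℕ) : ℝ :=
  (∑ᶠ w : {w : HeightOneSpectrum (𝓞 F) // Ideal.absNorm w.asIdeal ≤ N}, φ w.1) /
    (Nat.card {w : HeightOneSpectrum (𝓞 F) // Ideal.absNorm w.asIdeal ≤ N} : ℝ)

/-- `y w` is a conjugate of `x v` for all but finitely many primes `w` of `F` of residue degree one over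
the prime `v` of `K` below `w`. -/
def BaseChange {K : Type} [Field K] [NumberField K] [Algebra K F] {G : Type} [Group G]
    (x : HeightOneSpectrum (𝓞 K) → G) (y : HeightOneSpectrum (𝓞 F) → G) : Prop :=
  ∃ S : Finset (HeightOneSpectrum (𝓞 F)), ∀ w, w ∉ S → ∀ v : HeightOneSpectrum (𝓞 K),
    w.asIdeal.comap (algebraMap (𝓞 K) (𝓞 F)) = v.asIdeal →
    Ideal.absNorm w.asIdeal = Ideal.absNorm v.asIdeal → ∃ h : G, y w = h * x v * h⁻¹

end

/-- The absolute Galois group of `K`. -/
abbrev Gamma (K : Type) [Field K] : Type := Gal(AlgebraicClosure K/K)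

/-- `s` is a Frobenius element at the prime `v` of `K`: there is a maximal ideal `Q` above `v` of the ring
of all algebraic integers with `s x ≡ x ^ N(v)` modulo `Q` for all `x`. -/
def IsFrobeniusElement {K : Type} [Field K] [NumberField K] (v : HeightOneSpectrum (𝓞 K))
    (s : Gamma K) : Prop :=
  ∃ Q : Ideal (𝓞 (AlgebraicClosure K)), Q.IsMaximal ∧
    Q.comap (algebraMap (𝓞 K) (𝓞 (AlgebraicClosure K))) = v.asIdeal ∧
    ∀ x : 𝓞 (AlgebraicClosure K), s • x - x ^ Ideal.absNorm v.asIdeal ∈ Q

section

variable {K : Type} [Field K]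

/-- `F` is the fixed field of an element of `Gal(M/K)`: `M` is a cyclic extension of `F`. -/
def IsCyclicIn (M F : IntermediateField K (AlgebraicClosure K)) : Prop :=
  ∃ γ : Gamma K, ∀ z : AlgebraicClosure K, z ∈ F ↔ z ∈ M ∧ γ z = z

variable [NumberField K] {G : Type} [Group G] {N : Subgroup (Gamma K)} [N.Normal]

/-- The part `ST_F` of `G` belonging to the extension `F` of `K`. -/
def part (p : G →* Gamma K ⧸ N) (F : IntermediateField K (AlgebraicClosure K)) : Set G :=
  {g | ∃ γ ∈ F.fixingSubgroup, p g = QuotientGroup.mk γ}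

/-- `p` is a continuous homomorphism onto the Galois group of a finite extension of `K`, and for almost
all `v` and all Frobenius elements `σ` at `v`, `p (x v)` is conjugate to the image of `σ`. -/
structure IsSystem [TopologicalSpace G] (p : G →* Gamma K ⧸ N)
    (x : HeightOneSpectrum (𝓞 K) → G) : Prop where
  isOpen : IsOpen (N : Set (Gamma K))
  onto : Function.Surjective p
  openKernel : IsOpen (p.ker : Set G)
  classes : ∃ S : Finset (HeightOneSpectrum (𝓞 K)), ∀ v, v ∉ S → ∀ σ : Gamma K,
    IsFrobeniusElement v σ → ∃ δ : Gamma K ⧸ N, p (x v) = δ * QuotientGroup.mk σ * δ⁻¹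

variable [MeasurableSpace G]

/-- The mean value of `f` on `ST_F`. -/
noncomputable def expected (μ : Measure G) (p : G →* Gamma K ⧸ N)
    (F : IntermediateField K (AlgebraicClosure K)) (f : G → ℝ) : ℝ :=
  ⨍ g in part p F, f g ∂μ

variable [TopologicalSpace G]

/-- The law over `F`, for the class functions of `G`. -/
def HoldsOver (μ : Measure G) (p : G →* Gamma K ⧸ N) (x : HeightOneSpectrum (𝓞 K) → G)
    (F : IntermediateField K (AlgebraicClosure K)) [NumberField F] : Prop :=
  ∀ y : HeightOneSpectrum (𝓞 F) → G, BaseChange x y → ∀ f : G → ℝ, Continuous f →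
    (∀ g h, f (h * g * h⁻¹) = f g) → Tendsto (avg fun w => f (y w)) atTop (𝓝 (expected μ p F f))

/-- Let `M` be a finite Galois extension of `K`.  If the law holds over all fields between `K` and `M`
over which `M` is cyclic, then it holds over all fields between `K` and `M`.  If `Gal(M/K)` is not cyclic
and the law holds over all `F ≠ K` between `K` and `M`, then it holds over `K`. -/
def Descent (μ : Measure G) (p : G →* Gamma K ⧸ N) (x : HeightOneSpectrum (𝓞 K) → G) : Prop :=
  ∀ M : IntermediateField K (AlgebraicClosure K), FiniteDimensional K M → IsGalois K M →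
    ((∀ (F : IntermediateField K (AlgebraicClosure K)) [NumberField F], IsCyclicIn M F →
        HoldsOver μ p x F) →
      ∀ (F : IntermediateField K (AlgebraicClosure K)) [NumberField F], F ≤ M →
        HoldsOver μ p x F) ∧
    (¬ IsCyclic Gal(M/K) →
      (∀ (F : IntermediateField K (AlgebraicClosure K)) [NumberField F], F ≤ M → F ≠ ⊥ →
        HoldsOver μ p x F) →
      ∀ f : G → ℝ, Continuous f → (∀ g h, f (h * g * h⁻¹) = f g) →
        Tendsto (avg fun v => f (x v)) atTop (𝓝 (∫ g, f g ∂μ)))

end

section Bridge

open Pool.Agent.W401.Cheb Pool.Agent.Q12.ST.Des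

variable {K : Type} [Field K] [NumberField K]

/-- The number of the embeddings of `F` into `K̄` over `K` which are fixed by `γ`. -/
noncomputable def fixedEmbeddings (F : IntermediateField K (AlgebraicClosure K)) (γ : Gamma K) : ℕ :=
  Nat.card {i : F →ₐ[K] AlgebraicClosure K // ∀ z, γ (i z) = i z}

theorem fixed_eq (F : IntermediateField K (AlgebraicClosure K)) [NumberField F] (γ : Gamma K) :
    fixedEmbeddings F γ = Pool.Agent.W353.NF.fixn K F γ := by
  unfold fixedEmbeddings Pool.Agent.W353.NF.fixn
  refine Nat.card_congr (Equiv.subtypeEquivRight fun i => ?_)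
  rw [Pool.Agent.W353.NF.act_apply]
  constructor
  · intro h
    exact AlgHom.ext fun z => h z
  · intro h z
    exact DFunLike.congr_fun h z

theorem holds_iff {G : Type} [Group G] [TopologicalSpace G] [MeasurableSpace G]
    {N : Subgroup (Gamma K)} [N.Normal] (μ : Measure G) (p : G →* Gamma K ⧸ N)
    (x : HeightOneSpectrum (𝓞 K) → G) (F : IntermediateField K (AlgebraicClosure K))
    [NumberField F] : HoldsOver μ p x F ↔ Pool.Agent.Q12.ST.Des.HoldsOver μ p x F := Iff.rfl

/-- the fixed field of one element is a field over which `M` is cyclic -/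
theorem isCyclicIn_fixedIn (M : IntermediateField K (AlgebraicClosure K)) (γ : Gamma K) :
    IsCyclicIn M (fixedIn M γ) := ⟨γ, fun z => mem_fixedIn M γ z⟩

/-- a cyclic extension -/
theorem isCyclic_of {M : IntermediateField K (AlgebraicClosure K)} [FiniteDimensional K M]
    [IsGalois K M] {γ : Gamma K} (h : fixedIn M γ = ⊥) : IsCyclic Gal(M/K) := by
  let g : Gal(M/K) := AlgEquiv.restrictNormalHom M γ
  have hg : ∀ z : M, ((g z : M) : AlgebraicClosure K) = γ z := fun z =>
    AlgEquiv.restrictNormal_commutes γ M z
  have h1 : IntermediateField.fixedField (Subgroup.zpowers g) = ⊥ := by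
    rw [eq_bot_iff]
    intro z hz
    rw [IntermediateField.mem_fixedField_iff] at hz
    have h2 : (z : AlgebraicClosure K) ∈ fixedIn M γ := by
      rw [mem_fixedIn]
      refine ⟨z.2, ?_⟩
      rw [← hg, hz g (Subgroup.mem_zpowers g)]
    rw [h, IntermediateField.mem_bot] at h2
    obtain ⟨a, ha⟩ := h2
    rw [IntermediateField.mem_bot]
    exact ⟨a, Subtype.ext ha⟩
  have h3 : Subgroup.zpowers g = ⊤ := by
    have h4 := IntermediateField.fixingSubgroup_fixedField (Subgroup.zpowers g)
    rw [h1, IntermediateField.fixingSubgroup_bot] at h4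
    exact h4.symm
  exact (isCyclic_iff_exists_zpowers_eq_top (α := Gal(M/K))).2 ⟨g, h3⟩

/-- from the smallest intermediate field to `K` -/
theorem from_bot {G : Type} [Group G] [TopologicalSpace G] [CompactSpace G] [MeasurableSpace G]
    {μ : Measure G} [IsProbabilityMeasure μ] {N : Subgroup (Gamma K)} [N.Normal]
    {p : G →* Gamma K ⧸ N} {x : HeightOneSpectrum (𝓞 K) → G}
    [NumberField (⊥ : IntermediateField K (AlgebraicClosure K))]
    (h : HoldsOver μ p x (⊥ : IntermediateField K (AlgebraicClosure K)))
    {y : HeightOneSpectrum (𝓞 (⊥ : IntermediateField K (AlgebraicClosure K))) → G}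
    (hy : BaseChange x y) {f : G → ℝ} (hf : Continuous f) (hcl : ∀ g h, f (h * g * h⁻¹) = f g) :
    Tendsto (avg fun v => f (x v)) atTop (𝓝 (∫ g, f g ∂μ)) := by
  choose σ hσ using Pool.Agent.W540.BE.exists_isFrob (F := K)
  have h1 := h y hy f hf hcl
  have hpart : part p (⊥ : IntermediateField K (AlgebraicClosure K)) = Set.univ := by
    ext g
    simp only [Set.mem_univ, iff_true]
    obtain ⟨γ, hγ⟩ := QuotientGroup.mk_surjective (p g)
    refine ⟨γ, ?_, hγ.symm⟩
    rw [IntermediateField.fixingSubgroup_bot]
    exact Subgroup.mem_top γ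
  have he : expected μ p (⊥ : IntermediateField K (AlgebraicClosure K)) f = ∫ g, f g ∂μ := by
    unfold expected
    rw [hpart, Measure.restrict_univ, average_eq_integral]
  rw [he] at h1
  obtain ⟨B, hB⟩ := Pool.Agent.Q11.ST.bdf hf
  have h2 : Tendsto (fun n => Pool.Agent.Q11.ST.avg (fun w => f (y w)) n -
      Pool.Agent.W353.SP.EN K n (fun v => f (x v) *
        Pool.Agent.W353.NF.fixn K (⊥ : IntermediateField K (AlgebraicClosure K)) (σ v))) atTop
          (𝓝 0) :=
    avg_fix (K := K) (F := (⊥ : IntermediateField K (AlgebraicClosure K))) hy hf hcl σ hσ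
  have hone : ∀ v, (Pool.Agent.W353.NF.fixn K (⊥ : IntermediateField K (AlgebraicClosure K))
      (σ v) : ℝ) = 1 := by
    intro v
    rw [← fixed_eq]
    unfold fixedEmbeddings
    have hsub : Subsingleton
        ((⊥ : IntermediateField K (AlgebraicClosure K)) →ₐ[K] AlgebraicClosure K) := by
      refine ⟨fun i j => AlgHom.ext fun z => ?_⟩
      obtain ⟨a, ha⟩ := IntermediateField.mem_bot.1 z.2
      have hz : z = algebraMap K _ a := Subtype.ext ha.symm
      rw [hz, AlgHom.commutes, AlgHom.commutes]
    have h3 : Nat.card {i : (⊥ : IntermediateField K (AlgebraicClosure K)) →ₐ[K]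
        AlgebraicClosure K // ∀ z, (σ v) (i z) = i z} = 1 := by
      rw [Nat.card_eq_one_iff_unique]
      refine ⟨inferInstance, ⟨⟨(⊥ : IntermediateField K (AlgebraicClosure K)).val, fun z => ?_⟩⟩⟩
      obtain ⟨a, ha⟩ := IntermediateField.mem_bot.1 z.2
      have hz : z = algebraMap K _ a := Subtype.ext ha.symm
      rw [hz, AlgHom.commutes, AlgEquiv.commutes]
    rw [h3, Nat.cast_one]
  simp only [hone, mul_one] at h2
  have h3 := Pool.Agent.Q11.ST.avg_EN (φ := fun v => f (x v)) ⟨B, fun v => hB _⟩
  have h4 := (h3.sub h2).add h1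
  rw [sub_zero, zero_add] at h4
  have e : ∀ a b c : ℝ, a - b - (c - b) + c = a := fun a b c => by ring
  exact h4.congr fun n => e _ _ _

/-- a base change exists -/
theorem exists_bc {G : Type} [Group G] (x : HeightOneSpectrum (𝓞 K) → G) (F : Type) [Field F]
    [NumberField F] [Algebra K F] : ∃ y : HeightOneSpectrum (𝓞 F) → G, BaseChange x y := by
  classical
  refine ⟨fun w => if h : ∃ v : HeightOneSpectrum (𝓞 K),
    w.asIdeal.comap (algebraMap (𝓞 K) (𝓞 F)) = v.asIdeal then x h.choose else 1, ∅,
    fun w _ v hv _ => ⟨1, ?_⟩⟩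
  have hw : ∃ v : HeightOneSpectrum (𝓞 K), w.asIdeal.comap (algebraMap (𝓞 K) (𝓞 F)) =
    v.asIdeal := ⟨v, hv⟩
  simp only
  rw [dif_pos hw]
  have : hw.choose = v := HeightOneSpectrum.ext (hw.choose_spec.symm.trans hv)
  rw [this]
  group

end Bridge

/-- **Descent for the Sato-Tate law.**  Let `K` be a number field, `G` a
compact group with Haar probability measure `μ`, `p` a continuous homomorphism of `G` onto the Galois
group `Γ / N` of a finite extension of `K`, and `x v ∈ G` for the primes `v` of `K` such that `p (x v)` is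
the class of the Frobenius elements at `v` for almost all `v`.  Then the law `Descent` holds. -/
theorem result (K : Type) [Field K] [NumberField K] (G : Type) [Group G] [TopologicalSpace G]
    [IsTopologicalGroup G] [CompactSpace G] [MeasurableSpace G] [BorelSpace G] (μ : Measure G)
    [IsProbabilityMeasure μ] [μ.IsMulLeftInvariant] [μ.IsMulRightInvariant]
    (N : Subgroup (Gamma K)) [N.Normal] (p : G →* Gamma K ⧸ N)
    (x : HeightOneSpectrum (𝓞 K) → G) (h : IsSystem p x) :
    Descent μ p x := by
  classical
  intro M hM1 hM2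
  have key : (∀ (F : IntermediateField K (AlgebraicClosure K)) [NumberField F], IsCyclicIn M F →
      HoldsOver μ p x F) → ∀ (F : IntermediateField K (AlgebraicClosure K)) [NumberField F],
      F ≤ M → HoldsOver μ p x F := fun h1 F _ hF =>
    Pool.Agent.Q12.ST.Des.cyclic_descent h.isOpen h.onto h.openKernel M
      (fun γ _ => h1 _ (isCyclicIn_fixedIn M γ)) F hF
  refine ⟨key, fun hcyc h1 => ?_⟩
  have hbot : NumberField (⊥ : IntermediateField K (AlgebraicClosure K)) :=
    NumberField.of_module_finite K _
  have h2 : HoldsOver μ p x (⊥ : IntermediateField K (AlgebraicClosure K)) := by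
    refine Pool.Agent.Q12.ST.Des.cyclic_descent h.isOpen h.onto h.openKernel M
      (fun γ _ => h1 _ inf_le_left fun hγ => hcyc (isCyclic_of hγ)) _ bot_le
  intro f hf hcl
  obtain ⟨y, hy⟩ := exists_bc x (⊥ : IntermediateField K (AlgebraicClosure K))
  exact from_bot h2 hy hf hcl

end Pool.Agent.Results.MP_32ceeb_nt.CyclicDescent
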