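import Pool.Agent.Q93.KM.Jac
import Mathlib.Algebra.MvPolynomial.Degrees

/-!
# The even-degree cohomology of products of hyperelliptic curves whose coefficients arise from arbitrary integers by changing a
few digits: the Sato-Tate expectations of low degree, with square-root error, at arbitrary sets of primes

Let `C_j : Y ^ 2 = X ^ (2 g_j + 1) + ...`, `j < s`, be curves of genus `g_j` whose coefficients arise from arbitrary integers by
changing a few digits at random positions, and let `X` be the product of (the smooth projective models of) the curves. By the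
Kuenneth formula the trace of the Frobenius at a good prime `p` on `H ^ i(X)(i / 2)` is the coefficient of `T ^ i` in
`∏ (1 + t_j T + T ^ 2)`, where `t_j = (p + 1 - N_1(C_j)) / p ^ (1 / 2)` is the normalised trace on `H ^ 1(C_j)`. For even `i` this is
the trace of the class `x_p` of the problem. The joint moments of all these traces, of order at most `2 g_j + 1` for all `j`, agree with
the expectations for the product of the groups `USp(2 g_j)` up to a square-root error term, for almost all choices.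
-/

set_option autoImplicit false

namespace Pool.Agent.Results.MP_32ceeb_nt.FewDigitProductsOfCurves

open Finset Pool.Agent.Q235.FD

/-- The normalised trace `t = (p + 1 - N_1) / p ^ (1 / 2)` of the Frobenius on `H ^ 1` of the curve
`Y ^ 2 = X ^ D + n (D - 1) X ^ (D - 1) + ... + n 0` with `D` odd; the number `N_1` of the points modulo `p` is
`affine p n + 1` (there is one point at infinity). -/
noncomputable def t {D : ℕ} (p : ℕ) (n : Fin D → ℕ) : ℝ := ((p : ℝ) + 1 - ((affine p n + 1 : ℕ) : ℝ)) / Real.sqrt p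

/-- The moments of the trace on `USp(2 g)` for `k ≤ 2 g + 1`: `(k - 1)!!` for even `k`, and `0` for odd `k`. -/
noncomputable def c₁ (k : ℕ) : ℝ := if Even k then ((k - 1).doubleFactorial : ℝ) else 0

/-- The coefficient of `T ^ i` in `∏ (1 + y_j T + T ^ 2)`. -/
noncomputable def coeff {R : Type} [CommRing R] (s : ℕ) (y : Fin s → R) (i : ℕ) : R :=
  (∏ j : Fin s, (1 + Polynomial.C (y j) * Polynomial.X + Polynomial.X ^ 2) : Polynomial R).coeff i

section

variable {s : ℕ} {g : Fin s → ℕ}

/-- The coefficients of the curve `C_j`. -/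
def curve (m : (Σ j : Fin s, Fin (2 * g j + 1)) → ℕ) (j : Fin s) : Fin (2 * g j + 1) → ℕ := fun i => m ⟨j, i⟩

/-- All the curves have good reduction at `p` (`p ≠ 2`, and the polynomials are separable modulo `p`). -/
def AllGood (p : ℕ) (m : (Σ j : Fin s, Fin (2 * g j + 1)) → ℕ) : Prop := ∀ j, GoodPrime p (curve m j)

/-- The trace of the Frobenius at `p` on `H ^ i(X)(i / 2)`, `X` the product of the curves. -/
noncomputable def trace (p : ℕ) (m : (Σ j : Fin s, Fin (2 * g j + 1)) → ℕ) (i : ℕ) : ℝ := coeff s (fun j => t p (curve m j)) i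

/-- The expectation of a polynomial in independent variables with the moments `c₁`: the linear map with
`∏ X_j ^ k_j ↦ ∏ c₁ (k_j)`. -/
noncomputable def expect (Φ : MvPolynomial (Fin s) ℝ) : ℝ := ∑ d ∈ Φ.support, Φ.coeff d * ∏ j, c₁ (d j)

/-- The sum of the absolute values of the coefficients. -/
noncomputable def size (Φ : MvPolynomial (Fin s) ℝ) : ℝ := ∑ d ∈ Φ.support, |Φ.coeff d|

/-- A polynomial `Ψ` in variables `τ_0, ..., τ_(2 s)`, evaluated at the coefficients of `∏ (1 + X_j T + T ^ 2)`. -/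
noncomputable def subst (s : ℕ) (Ψ : MvPolynomial (Fin (2 * s + 1)) ℝ) : MvPolynomial (Fin s) ℝ :=
  MvPolynomial.bind₁ (fun i : Fin (2 * s + 1) => coeff s (fun j : Fin s => (MvPolynomial.X j : MvPolynomial (Fin s) ℝ)) i) Ψ

open Classical in
/-- For all sets `P` of primes in the family, with `W = |P| ^ (1 / 2) x ^ δ` (`P` not empty):
at most `W` of the primes in `P` are bad, and for all polynomials `Ψ` of degree at most `2 g_j + 1` (for all `j`) the sum of
`Ψ (trace on H ^ 0, ..., trace on H ^ (2 s)) - expect (subst s Ψ)` over the good primes in `P` is at most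
`size (subst s Ψ) * W` in absolute value. -/
def Good {B : ℕ} (δ : ℝ) (θ : Sets B) (x : ℕ) (m : (Σ j : Fin s, Fin (2 * g j + 1)) → ℕ) : Prop :=
  ∀ P ∈ θ.S x, (number P (fun p => ¬ AllGood p m) : ℝ) ≤ Real.sqrt (max 1 P.card) * (x : ℝ) ^ δ ∧
    ∀ Ψ : MvPolynomial (Fin (2 * s + 1)) ℝ, (∀ j, Ψ.totalDegree ≤ 2 * g j + 1) →
      |∑ p ∈ P.filter (fun p => AllGood p m), (MvPolynomial.eval (fun i : Fin (2 * s + 1) => trace p m i) Ψ - expect (subst s Ψ))| ≤
        size (subst s Ψ) * (Real.sqrt (max 1 P.card) * (x : ℝ) ^ δ)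

end

lemma degree_coeff (s : ℕ) (l : Fin s) (S : Finset (Fin s)) : ∀ i : ℕ,
    MvPolynomial.degreeOf l ((∏ j ∈ S, (1 + Polynomial.C (MvPolynomial.X j) * Polynomial.X + Polynomial.X ^ 2) :
      Polynomial (MvPolynomial (Fin s) ℝ)).coeff i) ≤ if l ∈ S then 1 else 0 := by
  classical
  induction S using Finset.induction_on with
  | empty =>
    intro i
    rw [prod_empty, Polynomial.coeff_one]
    split_ifs <;> simp
  | insert j S hj ih =>
    intro i
    rw [prod_insert hj, Polynomial.coeff_mul]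
    refine (MvPolynomial.degreeOf_sum_le _ _ _).trans (Finset.sup_le ?_)
    intro x _
    refine (MvPolynomial.degreeOf_mul_le _ _ _).trans ?_
    have h1 : MvPolynomial.degreeOf l ((1 + Polynomial.C (MvPolynomial.X j) * Polynomial.X + Polynomial.X ^ 2 :
      Polynomial (MvPolynomial (Fin s) ℝ)).coeff x.1) ≤ if l = j then 1 else 0 := by
      rw [Polynomial.coeff_add, Polynomial.coeff_add, Polynomial.coeff_C_mul, Polynomial.coeff_one, Polynomial.coeff_X, Polynomial.coeff_X_pow]
      refine (MvPolynomial.degreeOf_add_le _ _ _).trans (max_le ((MvPolynomial.degreeOf_add_le _ _ _).trans (max_le ?_ ?_)) ?_)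
      · split_ifs <;> simp
      · refine (MvPolynomial.degreeOf_mul_le _ _ _).trans ?_
        have h2 : MvPolynomial.degreeOf l (if 1 = x.1 then (1 : MvPolynomial (Fin s) ℝ) else 0) = 0 := by
          split_ifs <;> simp
        rw [h2, add_zero, MvPolynomial.degreeOf_X]
      · split_ifs <;> simp
    have h2 := ih x.2
    by_cases hl : l = j
    · subst hl
      rw [if_neg hj] at h2
      rw [if_pos rfl] at h1
      rw [if_pos (mem_insert_self _ _)]
      omega
    · rw [if_neg hl] at h1
      have e : l ∈ insert j S ↔ l ∈ S := by rw [mem_insert]; simp [hl]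
      simp only [e]
      omega

lemma degree_coeff' (s i : ℕ) (l : Fin s) :
    (coeff s (fun j : Fin s => (MvPolynomial.X j : MvPolynomial (Fin s) ℝ)) i).degreeOf l ≤ 1 := by
  have h := degree_coeff s l univ i
  rw [if_pos (mem_univ _)] at h
  exact h

lemma degree_subst (s : ℕ) (Ψ : MvPolynomial (Fin (2 * s + 1)) ℝ) (l : Fin s) : (subst s Ψ).degreeOf l ≤ Ψ.totalDegree := by
  classical
  unfold subst
  rw [MvPolynomial.bind₁, MvPolynomial.aeval_def, MvPolynomial.eval₂_eq]
  refine (MvPolynomial.degreeOf_sum_le _ _ _).trans (Finset.sup_le ?_)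
  intro d hd
  refine (MvPolynomial.degreeOf_mul_le _ _ _).trans ?_
  have h1 : MvPolynomial.degreeOf l (algebraMap ℝ (MvPolynomial (Fin s) ℝ) (Ψ.coeff d)) = 0 := MvPolynomial.degreeOf_C _ _
  rw [h1, zero_add]
  refine (MvPolynomial.degreeOf_prod_le _ _ _).trans ?_
  have h2 : ∀ i ∈ d.support, MvPolynomial.degreeOf l
      (coeff s (fun j : Fin s => (MvPolynomial.X j : MvPolynomial (Fin s) ℝ)) i ^ d i) ≤ d i := by
    intro i _
    refine (MvPolynomial.degreeOf_pow_le _ _ _).trans ?_
    calc d i * _ ≤ d i * 1 := Nat.mul_le_mul_left _ (degree_coeff' s i l)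
      _ = d i := mul_one _
  exact (sum_le_sum h2).trans (MvPolynomial.le_totalDegree hd)

lemma eval_subst {s : ℕ} {g : Fin s → ℕ} (p : ℕ) (m : (Σ j : Fin s, Fin (2 * g j + 1)) → ℕ) (Ψ : MvPolynomial (Fin (2 * s + 1)) ℝ) :
    MvPolynomial.eval (fun j => t p (curve m j)) (subst s Ψ) = MvPolynomial.eval (fun i : Fin (2 * s + 1) => trace p m i) Ψ := by
  unfold subst
  rw [MvPolynomial.bind₁, MvPolynomial.aeval_def, MvPolynomial.eval₂_eq, map_sum, MvPolynomial.eval_eq (fun i : Fin (2 * s + 1) => trace p m i) Ψ]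
  refine sum_congr rfl fun d _ => ?_
  rw [map_mul, map_prod]
  congr 1
  · exact MvPolynomial.eval_C _
  · refine prod_congr rfl fun i _ => ?_
    rw [map_pow]
    congr 1
    unfold trace coeff
    rw [← Polynomial.coeff_map, Polynomial.map_prod]
    congr 1
    refine prod_congr rfl fun j _ => ?_
    simp

/-- For all `s ≥ 1`, genera `g j ≥ 1`, bases `b ≥ 2`, `δ > 0`, `A` and `B`, `Good δ θ x m` holds for almost all systems `m` of the
coefficients of the curves obtained by changing a few digits of arbitrary integers (`ForAlmostAll`), uniformly in the family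
`θ` of at most `x ^ B` sets of primes up to `x`. -/
theorem result (s : ℕ) (hs : 1 ≤ s) (g : Fin s → ℕ) (_hg : ∀ j, 1 ≤ g j) (b : ℕ) (hb : 2 ≤ b) (δ : ℝ) (hδ : 0 < δ) (A B : ℕ) :
    ForAlmostAll (Σ j : Fin s, Fin (2 * g j + 1)) b A (Good (g := g) (B := B) δ) := by
  classical
  refine (Pool.Agent.Q93.KM.jac_law s hs (fun j => 2 * g j + 1) (fun j => ⟨g j, rfl⟩) hb hδ A B).mono 0 ?_
  intro θ x m _ h P hP
  obtain ⟨h1, h2⟩ := h P hP
  obtain ⟨W, hW⟩ : ∃ W : ℝ, W = Real.sqrt (max 1 P.card) * (x : ℝ) ^ δ := ⟨_, rfl⟩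
  rw [← hW] at h1 h2 ⊢
  have ea : ∀ (p : ℕ) (j : Fin s), t p (curve m j) = ntrace p (curve m j) := by
    intro p j
    unfold t ntrace
    push_cast
    ring
  have e0 : ∀ p, ∏ j, Pool.Agent.Q93.KM.fpow 0 p (fun i => m ⟨j, i⟩) = if AllGood p m then (1 : ℝ) else 0 := by
    intro p
    by_cases hg : AllGood p m
    · rw [if_pos hg]
      refine prod_eq_one fun j _ => ?_
      have hj : GoodPrime p (fun i => m ⟨j, i⟩) := hg j
      unfold Pool.Agent.Q93.KM.fpow
      rw [if_pos hj, pow_zero]
    · rw [if_neg hg]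
      unfold AllGood at hg
      push Not at hg
      obtain ⟨j, hj⟩ := hg
      refine prod_eq_zero (mem_univ j) ?_
      unfold Pool.Agent.Q93.KM.fpow
      exact if_neg hj
  have ek : ∀ (k : Fin s → ℕ) (p : ℕ), ∏ j, Pool.Agent.Q93.KM.fpow (k j) p (fun i => m ⟨j, i⟩) =
      if AllGood p m then (∏ j, (-1 : ℝ) ^ k j) * ∏ j, t p (curve m j) ^ k j else 0 := by
    intro k p
    by_cases hg : AllGood p m
    · rw [if_pos hg, ← prod_mul_distrib]
      refine prod_congr rfl fun j _ => ?_
      have hj : GoodPrime p (fun i => m ⟨j, i⟩) := hg j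
      unfold Pool.Agent.Q93.KM.fpow
      rw [if_pos hj, ea, neg_pow]
      rfl
    · rw [if_neg hg]
      unfold AllGood at hg
      push Not at hg
      obtain ⟨j, hj⟩ := hg
      refine prod_eq_zero (mem_univ j) ?_
      unfold Pool.Agent.Q93.KM.fpow
      exact if_neg hj
  have ec : ∀ k : Fin s → ℕ, (∏ j, (-1 : ℝ) ^ k j) * ∏ j, c₁ (k j) = ∏ j, gmom (k j) := by
    intro k
    rw [← prod_mul_distrib]
    refine prod_congr rfl fun j _ => ?_
    rcases Nat.even_or_odd (k j) with he | ho
    · rw [he.neg_one_pow, one_mul]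
      rfl
    · have h7 : gmom (k j) = 0 := by unfold gmom; rw [if_neg (Nat.not_even_iff_odd.2 ho)]
      have h8 : c₁ (k j) = 0 := h7
      rw [h7, h8, mul_zero]
  have hone : ∀ k : Fin s → ℕ, |∏ j, (-1 : ℝ) ^ k j| = 1 := by
    intro k
    rw [abs_prod]
    exact prod_eq_one fun j _ => by rw [abs_pow, abs_neg, abs_one, one_pow]
  have hmon : ∀ k : Fin s → ℕ, (∀ j, k j ≤ 2 * g j + 1) →
      |∑ p ∈ P.filter (fun p => AllGood p m), (∏ j, t p (curve m j) ^ k j - ∏ j, c₁ (k j))| ≤ W := by
    intro k hk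
    refine le_trans (le_of_eq ?_) (h2 k hk)
    have e5 : ∑ p ∈ P, (∏ j, Pool.Agent.Q93.KM.fpow (k j) p (fun i => m ⟨j, i⟩) -
        (∏ j, gmom (k j)) * ∏ j, Pool.Agent.Q93.KM.fpow 0 p (fun i => m ⟨j, i⟩)) =
        (∏ j, (-1 : ℝ) ^ k j) * ∑ p ∈ P.filter (fun p => AllGood p m), (∏ j, t p (curve m j) ^ k j - ∏ j, c₁ (k j)) := by
      rw [sum_filter, mul_sum]
      refine sum_congr rfl fun p _ => ?_
      rw [e0, ek, ← ec k]
      by_cases hg : AllGood p m
      · rw [if_pos hg, if_pos hg, if_pos hg]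
        ring
      · rw [if_neg hg, if_neg hg, if_neg hg, mul_zero, sub_zero, mul_zero]
    rw [e5, abs_mul, hone, one_mul]
  have hpoly : ∀ Φ : MvPolynomial (Fin s) ℝ, (∀ j, Φ.degreeOf j ≤ 2 * g j + 1) →
      |∑ p ∈ P.filter (fun p => AllGood p m), (MvPolynomial.eval (fun j => t p (curve m j)) Φ - expect Φ)| ≤ size Φ * W := by
    intro Φ hΦ
    have e1 : ∑ p ∈ P.filter (fun p => AllGood p m), (MvPolynomial.eval (fun j => t p (curve m j)) Φ - expect Φ) =
        ∑ d ∈ Φ.support, Φ.coeff d * ∑ p ∈ P.filter (fun p => AllGood p m), (∏ j, t p (curve m j) ^ d j - ∏ j, c₁ (d j)) := by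
      simp_rw [mul_sum]
      rw [sum_comm]
      refine sum_congr rfl fun p _ => ?_
      rw [MvPolynomial.eval_eq']
      unfold expect
      rw [← sum_sub_distrib]
      refine sum_congr rfl fun d _ => ?_
      ring
    rw [e1]
    refine (abs_sum_le_sum_abs _ _).trans ?_
    unfold size
    rw [sum_mul]
    refine sum_le_sum fun d hd => ?_
    rw [abs_mul]
    exact mul_le_mul_of_nonneg_left (hmon d fun j => (MvPolynomial.monomial_le_degreeOf j hd).trans (hΦ j)) (abs_nonneg _)
  refine ⟨?_, fun Ψ hΨ => ?_⟩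
  · refine le_trans (le_of_eq ?_) ((le_abs_self _).trans h1)
    unfold number
    rw [card_filter]
    push_cast
    refine sum_congr rfl fun p _ => ?_
    rw [e0]
    by_cases hg : AllGood p m
    · rw [if_neg (not_not.2 hg), if_pos hg, sub_self]
    · rw [if_pos hg, if_neg hg, sub_zero]
  · have h3 := hpoly (subst s Ψ) (fun j => (degree_subst s Ψ j).trans (hΨ j))
    simp only [eval_subst] at h3
    exact h3

end Pool.Agent.Results.MP_32ceeb_nt.FewDigitProductsOfCurves
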