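import Pool.Agent.Q193.LT.Sums
import Pool.Agent.Q193.LT.Crit

/-!
# The Sato-Tate conjecture in even degrees and the hypersurfaces of tripartite hypergraphs

Fix a prime number `ℓ` and an embedding of `ℚ_ℓ` in `ℂ`. Let `M` be the category of motives over `ℚ` for
motivated (or absolute Hodge) cycles, a semisimple abelian category with Tate twists `N ↦ N(a)`, and let
`w₀ : M ⥤ M` be the functor `N ↦ Gr^W_0 N`, the direct factor of weight zero. For a separated scheme `X`
of finite type over `ℚ` let `D.H i X` be the object of `M` given by the graded object of the weight
filtration of the cohomology with compact supports `H^i_c(X)`; for smooth projective `X` it is the motive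
`h^i(X)`.

For a motive `N` of weight zero let `st N` be the statement that the classes of the semisimple parts of
the Frobenius elements in the Sato-Tate group of `N` (a maximal compact subgroup of the complex points of
the Zariski closure of the image of the Galois group in `GL(H_ℓ(N))`) are equidistributed. It is inherited
by direct factors, as the group of `N'` maps onto the group of a direct factor (hypothesis `inherit`).

Question Q1 is `st (h^{2j}(X)(j))` for all smooth projective `X` over `ℚ` and all `j`, that is
`st (w₀ (h^i(X)(a)))` for all `i` and `a`. It is equivalent to `st (w₀ N)` for all finite direct sums `N` of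
Tate twists of motives `h^i(Y)`, as `⨁ h^{2a_j}(Y_j)(a_j)` is a direct factor of `h^{2a}(X)(a)` for the
disjoint union `X` of the varieties `Y_j × ℙ^m` and large `a` and `m` (hypothesis `unions`).

For a finite set `H` of triples `(i, j, l)` (a tripartite hypergraph) let `X_H` be the smooth affine cubic
hypersurface `∑_{(i, j, l) ∈ H} x_i y_j z_l = 1` over `ℚ`.

**Theorem.** (1) Question Q1 has a positive answer (for `ℓ` and the embedding) if and only if the
Frobenius elements are equidistributed for all finite direct sums of weight zero parts of Tate twists of
the motives `Gr^W H^i_c(X_H)` and of the motive of the point.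

(2) For all `n`, the Frobenius elements are equidistributed for all finite direct sums of weight zero parts
of Tate twists of motives `h^i(Y)` of smooth projective `Y` of dimension at most `n` if and only if they
are equidistributed for all finite direct sums of weight zero parts of Tate twists of the motives
`Gr^W H^i_c(T = 1)` of the smooth affine cubic hypersurfaces `T(x, y, z) = 1` of the trilinear forms `T`
over `ℚ` such that one of the three blocks of variables has at most `n + 2` variables (the other two blocks
are arbitrary), and of the motive of the point.

(3) Unconditionally, they are equidistributed for the sums as in (2) for the `T` with a block of at most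
three variables (there the weight zero parts are Artin motives, Chebotarev).
-/

set_option autoImplicit false

open CategoryTheory CategoryTheory.Limits AlgebraicGeometry Pool.Agent.Y116.UV Pool.Agent.Z125.UN
  Pool.Agent.Q193.LT

universe v u

namespace Pool.Agent.Results.MP_32ceeb_nt.HypergraphSatoTate

/-- **The Sato-Tate conjecture in even degrees and tripartite hypergraphs.** See the explanations above. -/
theorem result {M : Type u} [Category.{v} M] [Abelian M] {D : CompactData ℚ M} (h : IsMotives D)
    {w₀ : M ⥤ M} {st : M → Prop}
    (inherit : ∀ {N N' : M} (i : N ⟶ N') (r : N' ⟶ N), i ≫ r = 𝟙 N → st N' → st N)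
    (unions : (∀ Y : Sch ℚ, SmoothProj Y → ∀ i a : ℤ, st (w₀.obj ((D.tw a).obj (D.H i Y)))) ↔
      SumsHave D (OfProjAll D) fun N => st (w₀.obj N)) :
    ((∀ Y : Sch ℚ, SmoothProj Y → ∀ i a : ℤ, st (w₀.obj ((D.tw a).obj (D.H i Y)))) ↔
      SumsHave D (OfGraphs D) fun N => st (w₀.obj N)) ∧
    (∀ n : ℕ, SumsHave D (OfProj D n) (fun N => st (w₀.obj N)) ↔
      SumsHave D (OfForms D (n + 2)) fun N => st (w₀.obj N)) ∧
    ((SumsHave D (OfProj D 1) fun N => st (w₀.obj N)) →
      SumsHave D (OfForms D 3) fun N => st (w₀.obj N)) := by
  have h0 : ∀ {N N' : M} (i : N ⟶ N') (r : N' ⟶ N), i ≫ r = 𝟙 N → st (w₀.obj N') →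
      st (w₀.obj N) := fun i r hir hN =>
    inherit (w₀.map i) (w₀.map r) (by rw [← w₀.map_comp, hir, w₀.map_id]) hN
  have h1 : ∀ n : ℕ, SumsHave D (OfProj D n) (fun N => st (w₀.obj N)) ↔
      SumsHave D (OfForms D (n + 2)) fun N => st (w₀.obj N) := fun n =>
    sums_dim_iff h.compact h.generated h.semisimple h0 n
  exact ⟨unions.trans (sums_graph_iff h.compact h.generated h.semisimple h0 frac_rat), h1,
    (h1 1).mp⟩

end Pool.Agent.Results.MP_32ceeb_nt.HypergraphSatoTate
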